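import Pool.Agent.W522.N.N10

/-!
# The p-adic monodromy-weight conjecture for special fibres without triple points

Let `X` be a projective strictly semistable scheme of relative dimension `n` over the ring of
integers of `K`, `Y` its special fibre, over the field with `q` elements (over which all components
and double intersections are defined), `Y^(1)` the disjoint union of the components and `Y^(2)` the
disjoint union of the intersections of two components. Suppose that three components do not meet.

For the `p`-adic conjecture, `E = W(k)[1/p]`, `V a w` is the crystalline cohomology
`H^(w-a)(Y^(a+1)/W)[1/p]`, Frobenius is the linear power of the crystalline Frobenius, and the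
spectral sequence is the one of Mokrane, which converges to the Hyodo-Kato cohomology `D_st` of
`H^w(X_K̄, ℚ_p)` and degenerates at `E_2`. (For `E = ℚ_ℓ` the theorem is the `ℓ`-adic statement.)
-/

set_option autoImplicit false

namespace Pool.Agent.Results.MP_6451f1_ag.NoTriplePoints

open Pool.Agent.W522.M

/-- **The monodromy-weight conjecture in all dimensions and degrees for special fibres without
triple points, and with simple spectrum on the double intersections.** Suppose that all eigenvalues
of Frobenius on `H^(w-1)(Y^(2))`, `w ≤ n`, are simple, except `q^j` in `H^(2j)(Y^(2))`, and that the
classes of algebraic cycles satisfy the conjecture of Tate (on `Y^(1)` up to degree `n - 1`, on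
`Y^(2)` up to degree `n - 3`) and the standard conjecture of Hodge type (on `Y^(2)`). Then `N^r`
induces an isomorphism `E_2^(-r, w+r) → E_2^(r, w-r)(-r)` for all `w` and all `r ≥ 1`.
For `n ≤ 4` the assumptions on cycles are known except for the conjecture of Tate for divisors
on the components. -/
theorem result {E : Type} [Field E] [CharZero E] (D : Strata E) (n q : ℕ) (hq : q ≠ 0)
    (hD : D.IsDoubleSemistable n q) (A : D.Cycles) (hA : A.IsPolarised n q)
    (hS : D.SimpleSpectrum n q) (w r : ℕ) (hw : w ≤ 2 * n) (hr : 1 ≤ r) :
    D.MonodromyWeight w r :=
  double hq hD A hA hS w r hw hr

end Pool.Agent.Results.MP_6451f1_ag.NoTriplePoints
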