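import Pool.Agent.W543.WM.TateMain

/-!
# The `p`-adic monodromy-weight conjecture reduces to `N : gr_{n+1} H^n → gr_{n-1} H^n`

`D` is a class of smooth projective varieties over a `p`-adic field `K` (the generic fibres of
projective semistable schemes over `O_K`), stable under the products with a Tate elliptic curve `E`
and with the projective line, with the monodromy operators and the weight parts of their
cohomology `H^i_{pst,p}(X)`.
-/

universe u v

namespace Pool.Agent.Results.MP_6451f1_ag.TateCurveReduction

open Pool.Agent.W543.WM

theorem result {F : Type u} [Field F] [CharZero F] (D : Degenerations.{u, v} F)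
    (hD : IsGeometric D) :
    -- for one variety `X`: `H^i(X)` is mw pure of weight `i` for all `i` if and only if, for all
    -- `m < dim X` and all `i`, no nonzero element of weight `i + 1` of `H^i(X × E^m)` is killed
    -- by `N`
    (∀ X : D.Obj, (∀ i, (D.H X i).Pure i) ↔
      ∀ m < D.dim X, ∀ i : ℤ, (D.H (D.timesTate^[m] X) i).NoKernel (i + 1)) ∧
    -- for the whole class: the conjecture, its case `N^r` for one fixed `r ≥ 1`, and the
    -- vanishing of the elements of weight `n + 1` killed by `N` in the middle cohomology
    -- (`n = dim X`) are equivalent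
    ∀ r : ℕ, 1 ≤ r →
      [∀ X i, (D.H X i).Pure i,
        ∀ X i, (D.H X i).Bij i r,
        ∀ X, (D.H X (D.dim X)).NoKernel (D.dim X + 1)].TFAE :=
  ⟨fun X => pure_iff hD X, fun r hr => tfae_pure hD r hr⟩

end Pool.Agent.Results.MP_6451f1_ag.TateCurveReduction
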